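import Pool.Agent.Lib.MP_f64879_nt.Final

/-! A positive proportion of the integers are sums `x + y + z` with `2 y + 1` and `2 x y z + e`
prime and `2 x y z - e` almost prime. -/

namespace Pool.Agent.Results.MP_f64879_nt.TwoPrimesDensity

theorem result : ∃ K : ℕ, ∀ x : ℕ, 1 ≤ x → ∀ e : ℤ, e = 1 ∨ e = -1 → ∃ c : ℝ, 0 < c ∧
    ∀ᶠ N : ℕ in Filter.atTop, c * N ≤ Set.ncard {n : ℕ | n < N ∧ ∃ y z p r : ℕ,
      1 ≤ y ∧ 1 ≤ z ∧ n = x + y + z ∧ (p : ℤ) = 2 * x * y * z + e ∧ (r : ℤ) = 2 * x * y * z - e ∧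
      (2 * y + 1).Prime ∧ p.Prime ∧ ArithmeticFunction.cardFactors r ≤ K} := by
  obtain ⟨K, h⟩ := Pool.Agent.Lib.MP_f64879_nt.main
  refine ⟨K, fun x hx e he => ?_⟩
  obtain ⟨c, hc, h⟩ := h x hx e he
  refine ⟨c, hc, h.mono fun N hN => hN.trans_eq ?_⟩
  rw [← Set.ncard_coe_finset]
  congr 2
  ext n
  simp [ArithmeticFunction.cardFactors_apply]

end Pool.Agent.Results.MP_f64879_nt.TwoPrimesDensity
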